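import Pool.Agent.H223.MB.Stm3

open scoped RealInnerProductSpace Topology
open Set Filter

namespace Pool.Agent.H223.MB

private theorem gen_same {X : Type} [TopologicalSpace X] {W : Set X} (h : SimplyConnectedSpace W)
    {x y : X} (γ δ : Path x y) (hγ : ∀ t, γ t ∈ W) (hδ : ∀ t, δ t ∈ W) :
    Path.Homotopic.Quotient.mk γ = Path.Homotopic.Quotient.mk δ := by
  have hx : x ∈ W := by simpa using hγ 0
  have hy : y ∈ W := by simpa using hγ 1
  let γ' : Path (⟨x, hx⟩ : W) ⟨y, hy⟩ :=
    { toFun := fun t => ⟨γ t, hγ t⟩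
      continuous_toFun := by fun_prop
      source' := by simp
      target' := by simp }
  let δ' : Path (⟨x, hx⟩ : W) ⟨y, hy⟩ :=
    { toFun := fun t => ⟨δ t, hδ t⟩
      continuous_toFun := by fun_prop
      source' := by simp
      target' := by simp }
  have h1 : Path.Homotopic γ' δ' := SimplyConnectedSpace.paths_homotopic γ' δ'
  have h2 := h1.map (⟨Subtype.val, continuous_subtype_val⟩ : C(W, X))
  apply Path.Homotopic.Quotient.eq.2
  exact h2

private theorem gen_mul {X : Type} [TopologicalSpace X] {x₀ x y z : X}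
    (a : Path.Homotopic.Quotient x₀ x) (b : Path.Homotopic.Quotient x y)
    (r : Path.Homotopic.Quotient x₀ y) (d : Path.Homotopic.Quotient y z)
    (e : Path.Homotopic.Quotient x₀ z) :
    ((a.trans b).trans r.symm).trans ((r.trans d).trans e.symm) =
      (a.trans (b.trans d)).trans e.symm := by
  simp only [Path.Homotopic.Quotient.trans_assoc]
  rw [← Path.Homotopic.Quotient.trans_assoc r.symm r, Path.Homotopic.Quotient.symm_trans,
    Path.Homotopic.Quotient.refl_trans]

/-- membership in the cyclic group -/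
private def gen_In {X : Type} [TopologicalSpace X] {x₀ : X} (g a : Path.Homotopic.Quotient x₀ x₀) : Prop :=
  (show FundamentalGroup X x₀ from a) ∈ Subgroup.zpowers (show FundamentalGroup X x₀ from g)

private theorem gen_In_trans {X : Type} [TopologicalSpace X] {x₀ : X}
    {g a b : Path.Homotopic.Quotient x₀ x₀} (ha : gen_In g a) (hb : gen_In g b) :
    gen_In g (a.trans b) :=
  Subgroup.mul_mem _ hb ha

private theorem gen_In_symm {X : Type} [TopologicalSpace X] {x₀ : X}
    {g a : Path.Homotopic.Quotient x₀ x₀} (ha : gen_In g a) : gen_In g a.symm :=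
  Subgroup.inv_mem _ ha

private theorem gen_B {X : Type} [TopologicalSpace X] {W : Fin 3 → Set X} {x₀ : X}
    {g : Path.Homotopic.Quotient x₀ x₀}
    (hyp : ∀ i j, i ≤ j → ∀ x, x ∈ W i → x ∈ W j → ∀ γ δ : Path x₀ x, (∀ t, γ t ∈ W i) → (∀ t, δ t ∈ W j) →
      (Path.Homotopic.Quotient.mk (γ.trans δ.symm) = Path.Homotopic.Quotient.mk (Path.refl x₀) ∨
       Path.Homotopic.Quotient.mk (γ.trans δ.symm) = g))
    (i j : Fin 3) {x : X} (γ δ : Path x₀ x) (hγ : ∀ t, γ t ∈ W i) (hδ : ∀ t, δ t ∈ W j) :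
    gen_In g ((Path.Homotopic.Quotient.mk γ).trans (Path.Homotopic.Quotient.mk δ).symm) := by
  have main : ∀ i j, i ≤ j → ∀ γ δ : Path x₀ x, (∀ t, γ t ∈ W i) → (∀ t, δ t ∈ W j) →
      gen_In g ((Path.Homotopic.Quotient.mk γ).trans (Path.Homotopic.Quotient.mk δ).symm) := by
    intro i j hij γ δ hγ hδ
    have hxi : x ∈ W i := by simpa using hγ 1
    have hxj : x ∈ W j := by simpa using hδ 1
    have h := hyp i j hij x hxi hxj γ δ hγ hδ
    rw [Path.Homotopic.Quotient.mk_trans, Path.Homotopic.Quotient.mk_symm] at h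
    rcases h with h | h
    · rw [h]
      exact Subgroup.one_mem _
    · rw [h]
      exact Subgroup.mem_zpowers _
  rcases le_total i j with hij | hij
  · exact main i j hij γ δ hγ hδ
  · have h := gen_In_symm (main j i hij δ γ hδ hγ)
    have e : ((Path.Homotopic.Quotient.mk δ).trans (Path.Homotopic.Quotient.mk γ).symm).symm =
        (Path.Homotopic.Quotient.mk γ).trans (Path.Homotopic.Quotient.mk δ).symm := by
      rw [← Path.Homotopic.Quotient.mk_symm, ← Path.Homotopic.Quotient.mk_trans,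
        ← Path.Homotopic.Quotient.mk_symm, ← Path.Homotopic.Quotient.mk_symm,
        ← Path.Homotopic.Quotient.mk_trans, Path.trans_symm, Path.symm_symm]
    rwa [e] at h

private theorem gen_join {X : Type} [TopologicalSpace X] {W : Set X} (h : SimplyConnectedSpace W)
    {x y : X} (hx : x ∈ W) (hy : y ∈ W) : ∃ γ : Path x y, ∀ t, γ t ∈ W := by
  have h1 : IsPathConnected W := isPathConnected_iff_pathConnectedSpace.2 inferInstance
  obtain ⟨γ, hγ⟩ := h1.joinedIn x hx y hy
  exact ⟨γ, hγ⟩

private theorem gen_C {X : Type} [TopologicalSpace X] {W : Fin 3 → Set X} {x₀ : X}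
    (hx₀ : ∀ i, x₀ ∈ W i) (hsc : ∀ i, SimplyConnectedSpace (W i))
    {g : Path.Homotopic.Quotient x₀ x₀}
    (hyp : ∀ i j, i ≤ j → ∀ x, x ∈ W i → x ∈ W j → ∀ γ δ : Path x₀ x, (∀ t, γ t ∈ W i) → (∀ t, δ t ∈ W j) →
      (Path.Homotopic.Quotient.mk (γ.trans δ.symm) = Path.Homotopic.Quotient.mk (Path.refl x₀) ∨
       Path.Homotopic.Quotient.mk (γ.trans δ.symm) = g))
    (i j k : Fin 3) {x y : X} (p : Path x₀ x) (γ : Path x y) (q : Path x₀ y)
    (hp : ∀ t, p t ∈ W j) (hγ : ∀ t, γ t ∈ W i) (hq : ∀ t, q t ∈ W k) :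
    gen_In g (((Path.Homotopic.Quotient.mk p).trans (Path.Homotopic.Quotient.mk γ)).trans
      (Path.Homotopic.Quotient.mk q).symm) := by
  have hx : x ∈ W i := by simpa using hγ 0
  have hy : y ∈ W i := by simpa using hγ 1
  obtain ⟨r, hr⟩ := gen_join (hsc i) (hx₀ i) hx
  obtain ⟨s, hs⟩ := gen_join (hsc i) (hx₀ i) hy
  have h1 := gen_B hyp j i p r hp hr
  have h2 := gen_B hyp i k s q hs hq
  have h3 : Path.Homotopic.Quotient.mk (r.trans γ) = Path.Homotopic.Quotient.mk s := by
    refine gen_same (hsc i) _ _ (fun t => ?_) hs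
    rw [Path.trans_apply]
    split_ifs
    · exact hr _
    · exact hγ _
  rw [Path.Homotopic.Quotient.mk_trans] at h3
  have h4 := gen_In_trans h1 h2
  rw [← h3] at h4
  have e : ((Path.Homotopic.Quotient.mk p).trans (Path.Homotopic.Quotient.mk r).symm).trans
      (((Path.Homotopic.Quotient.mk r).trans (Path.Homotopic.Quotient.mk γ)).trans
        (Path.Homotopic.Quotient.mk q).symm) =
      ((Path.Homotopic.Quotient.mk p).trans (Path.Homotopic.Quotient.mk γ)).trans
        (Path.Homotopic.Quotient.mk q).symm := by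
    have h5 := gen_mul (Path.Homotopic.Quotient.mk p) (Path.Homotopic.Quotient.refl x)
      (Path.Homotopic.Quotient.mk r) (Path.Homotopic.Quotient.mk γ) (Path.Homotopic.Quotient.mk q)
    rwa [Path.Homotopic.Quotient.trans_refl, Path.Homotopic.Quotient.refl_trans] at h5
  rwa [e] at h4

private theorem gen_cast {X : Type} [TopologicalSpace X] {x₀ x y : X} (p : Path x₀ x) (γ : Path x y)
    (q : Path x₀ y) (a b : unitInterval) (ha : a = 0) (hb : b = 1) (h1 : γ a = x) (h2 : γ b = y) :
    (((p.cast rfl h1).trans (γ.subpath a b)).trans (q.cast rfl h2).symm) =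
      ((p.trans γ).trans q.symm) := by
  subst ha hb
  rw [Path.subpath_zero_one]
  ext t
  simp [Path.trans_apply]

private theorem gen_D {X : Type} [TopologicalSpace X] {W : Fin 3 → Set X} {x₀ : X}
    (hop : ∀ i, IsOpen (W i)) (hcov : ∀ x, ∃ i, x ∈ W i)
    (hx₀ : ∀ i, x₀ ∈ W i) (hsc : ∀ i, SimplyConnectedSpace (W i))
    {g : Path.Homotopic.Quotient x₀ x₀}
    (hyp : ∀ i j, i ≤ j → ∀ x, x ∈ W i → x ∈ W j → ∀ γ δ : Path x₀ x, (∀ t, γ t ∈ W i) → (∀ t, δ t ∈ W j) →
      (Path.Homotopic.Quotient.mk (γ.trans δ.symm) = Path.Homotopic.Quotient.mk (Path.refl x₀) ∨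
       Path.Homotopic.Quotient.mk (γ.trans δ.symm) = g))
    (j k : Fin 3) {x y : X} (p : Path x₀ x) (γ : Path x y) (q : Path x₀ y)
    (hp : ∀ t, p t ∈ W j) (hq : ∀ t, q t ∈ W k) :
    gen_In g (((Path.Homotopic.Quotient.mk p).trans (Path.Homotopic.Quotient.mk γ)).trans
      (Path.Homotopic.Quotient.mk q).symm) := by
  obtain ⟨t, ht0, hmono, ⟨n, hn⟩, hsub⟩ := exists_monotone_Icc_subset_open_cover_unitInterval
    (c := fun i : Fin 3 => γ ⁻¹' W i) (fun i => (hop i).preimage γ.continuous)
    (fun s _ => by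
      obtain ⟨i, hi⟩ := hcov (γ s)
      exact Set.mem_iUnion.2 ⟨i, hi⟩)
  have key : ∀ n : ℕ, ∀ (j k : Fin 3) (p : Path x₀ (γ (t 0))) (q : Path x₀ (γ (t n))),
      (∀ s, p s ∈ W j) → (∀ s, q s ∈ W k) →
      gen_In g (((Path.Homotopic.Quotient.mk p).trans
        (Path.Homotopic.Quotient.mk (γ.subpath (t 0) (t n)))).trans
        (Path.Homotopic.Quotient.mk q).symm) := by
    intro n
    induction n with
    | zero =>
      intro j k p q hp hq
      rw [Path.subpath_self, Path.Homotopic.Quotient.mk_refl, Path.Homotopic.Quotient.trans_refl]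
      exact gen_B hyp j k p q hp hq
    | succ n ih =>
      intro j k p q hp hq
      obtain ⟨l, hl⟩ := hcov (γ (t n))
      obtain ⟨r, hr⟩ := gen_join (hsc l) (hx₀ l) hl
      obtain ⟨i, hi⟩ := hsub n
      have h1 := ih j l p r hp hr
      have h2 := gen_C hx₀ hsc hyp i l k r (γ.subpath (t n) (t (n + 1))) q hr (fun s => by
        have h3 : γ.subpath (t n) (t (n + 1)) s ∈ range (γ.subpath (t n) (t (n + 1))) := ⟨s, rfl⟩
        rw [Path.range_subpath_of_le γ _ _ (hmono (Nat.le_succ n))] at h3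
        obtain ⟨u, hu, hu2⟩ := h3
        rw [← hu2]
        exact hi hu) hq
      have h3 := gen_In_trans h1 h2
      rw [gen_mul] at h3
      have h4 : (Path.Homotopic.Quotient.mk (γ.subpath (t 0) (t n))).trans
          (Path.Homotopic.Quotient.mk (γ.subpath (t n) (t (n + 1)))) =
          Path.Homotopic.Quotient.mk (γ.subpath (t 0) (t (n + 1))) := by
        rw [← Path.Homotopic.Quotient.mk_trans]
        exact Path.Homotopic.Quotient.eq.2 ⟨Path.Homotopy.subpathTransSubpath γ _ _ _⟩
      rwa [h4] at h3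
  have h1 : γ (t 0) = x := by rw [ht0]; exact γ.source
  have h2 : γ (t n) = y := by rw [hn n le_rfl]; exact γ.target
  have h3 := key n j k (p.cast rfl h1) (q.cast rfl h2) (fun s => hp s) (fun s => hq s)
  rw [← Path.Homotopic.Quotient.mk_symm, ← Path.Homotopic.Quotient.mk_trans,
    ← Path.Homotopic.Quotient.mk_trans, gen_cast p γ q (t 0) (t n) ht0 (hn n le_rfl) h1 h2,
    Path.Homotopic.Quotient.mk_trans, Path.Homotopic.Quotient.mk_trans,
    Path.Homotopic.Quotient.mk_symm] at h3
  exact h3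

theorem pGEN : GEN := by
  intro X _ W x₀ hop hcov hx₀ hsc g hyp x α β
  obtain ⟨j, hj⟩ := hcov x
  obtain ⟨p, hp⟩ := gen_join (hsc j) (hx₀ j) hj
  have hall : ∀ a : Path.Homotopic.Quotient x x,
      gen_In g (((Path.Homotopic.Quotient.mk p).trans a).trans (Path.Homotopic.Quotient.mk p).symm) := by
    intro a
    obtain ⟨γ, rfl⟩ := Path.Homotopic.Quotient.mk_surjective a
    exact gen_D hop hcov hx₀ hsc hyp j j p γ p hp hp
  obtain ⟨P, hP⟩ : ∃ P : Path.Homotopic.Quotient x₀ x, P = Path.Homotopic.Quotient.mk p := ⟨_, rfl⟩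
  rw [← hP] at hall
  have hcomm : ∀ a b : Path.Homotopic.Quotient x x, a.trans b = b.trans a := by
    intro a b
    obtain ⟨m, hm⟩ := Subgroup.mem_zpowers_iff.1 (hall a)
    obtain ⟨n, hn⟩ := Subgroup.mem_zpowers_iff.1 (hall b)
    have h1 : ((P.trans a).trans P.symm).trans ((P.trans b).trans P.symm) =
        ((P.trans b).trans P.symm).trans ((P.trans a).trans P.symm) := by
      have h2 : (show FundamentalGroup X x₀ from g) ^ n * (show FundamentalGroup X x₀ from g) ^ m =
          (show FundamentalGroup X x₀ from g) ^ m * (show FundamentalGroup X x₀ from g) ^ n := by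
        rw [← zpow_add, ← zpow_add, add_comm]
      rw [hm, hn] at h2
      exact h2
    rw [gen_mul, gen_mul] at h1
    have h3 : ∀ c : Path.Homotopic.Quotient x x,
        P.symm.trans (((P.trans c).trans P.symm).trans P) = c := by
      intro c
      rw [Path.Homotopic.Quotient.trans_assoc (P.trans c), Path.Homotopic.Quotient.symm_trans,
        Path.Homotopic.Quotient.trans_refl, ← Path.Homotopic.Quotient.trans_assoc,
        Path.Homotopic.Quotient.symm_trans, Path.Homotopic.Quotient.refl_trans]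
    rw [← h3 (a.trans b), h1, h3]
  exact hcomm β α

end Pool.Agent.H223.MB
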